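import Pool.Agent.BF80.Main

/-!
# The binary fragment of the theory of `F_p((t))` and of `F_p[[t]]`

For every prime `p` there are algorithms which, given a first order formula of the language
`{+, -, ·, 0, 1, t}` all of whose equations have at most two variables (the formula may have any
number of variables and quantifiers), decide whether it holds in `F_p((t))`, respectively in
`F_p[[t]]`, when its free variables are read as `0`.
-/

open BF80

namespace FT80Old

theorem binary_fragment (p : ℕ) [Fact p.Prime] :
    (∃ D : List ℕ → Bool, Computable D ∧ ∀ φ : BFm, (D φ.code = true ↔
      φ.Holds (HahnSeries.single 1 1 : LaurentSeries (ZMod p)) (fun _ => 0))) ∧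
    (∃ D : List ℕ → Bool, Computable D ∧ ∀ φ : BFm, (D φ.code = true ↔
      φ.Holds (PowerSeries.X : PowerSeries (ZMod p)) (fun _ => 0))) :=
  binary p

end FT80Old
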