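import Pool.Agent.FT80.Final

/-!
# Sentences with two quantifiers over `F_p((t))` and `F_p[[t]]`

For every prime `p` there are algorithms which, given a quantifier free formula `φ(x, y)` of the
language `{+, -, ·, 0, 1, t}`, decide whether `∀ x ∃ y φ(x, y)`, respectively `∃ x ∀ y φ(x, y)`,
holds in `F_p((t))`, respectively in `F_p[[t]]`.
-/

open FT80

namespace FT80Old

theorem two_quantifiers (p : ℕ) [Fact p.Prime] :
    (∃ D : List ℕ → Bool, Computable D ∧ ∀ φ : Fml, (D φ.code = true ↔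
      ∀ x : LaurentSeries (ZMod p), ∃ y : LaurentSeries (ZMod p),
        φ.Holds (HahnSeries.single 1 1) x y)) ∧
    (∃ D : List ℕ → Bool, Computable D ∧ ∀ φ : Fml, (D φ.code = true ↔
      ∃ x : LaurentSeries (ZMod p), ∀ y : LaurentSeries (ZMod p),
        φ.Holds (HahnSeries.single 1 1) x y)) ∧
    (∃ D : List ℕ → Bool, Computable D ∧ ∀ φ : Fml, (D φ.code = true ↔
      ∀ x : PowerSeries (ZMod p), ∃ y : PowerSeries (ZMod p), φ.Holds PowerSeries.X x y)) ∧
    (∃ D : List ℕ → Bool, Computable D ∧ ∀ φ : Fml, (D φ.code = true ↔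
      ∃ x : PowerSeries (ZMod p), ∀ y : PowerSeries (ZMod p), φ.Holds PowerSeries.X x y)) := by
  have ht : iK p PowerSeries.X = (HahnSeries.single 1 1 : LaurentSeries (ZMod p)) :=
    HahnSeries.ofPowerSeries_X
  have hK := decide_KK p
  rw [ht] at hK
  have hO := decide_OO p
  exact ⟨hK, decide_neg _ hK, hO, decide_neg _ hO⟩

end FT80Old
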